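import Pool.Agent.TH427.AR.Syl

/-!
# Sylow subloops of finite automorphic loops with group composition factors

Let `f` be a homomorphism from a finite automorphic loop `Q` onto a loop `K` such that the kernel of
`f` has a subnormal series whose factors are groups (of any kind) or have prime power order.  If `K`
has a Sylow `p`-subloop, then `Q` has a Sylow `p`-subloop.

For the one-element loop `K` this says that every finite automorphic loop with such a series has
Sylow `p`-subloops for all primes `p`.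

The proof shows that a finite automorphic loop with such a series is an extension of a solvable loop
by a group.
-/

set_option autoImplicit false

namespace Pool.Agent.Results.MP_b7c14b_al.GroupFactors

open Pool.Agent.TH427.AR (AutLoop)

/-- `M` and `N` are subloops of a finite loop with product `mul` and identity `e`, and `M` is normal
in `N`. -/
def NormalIn {X : Type} (mul : X → X → X) (e : X) (M N : Set X) : Prop :=
  M ⊆ N ∧ e ∈ M ∧ (∀ a ∈ M, ∀ b ∈ M, mul a b ∈ M) ∧ (∀ a ∈ N, ∀ b ∈ N, mul a b ∈ N) ∧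
    (∀ x ∈ N, ∀ y ∈ N, ∀ m ∈ M,
      (∃ m' ∈ M, mul x m = mul m' x) ∧
      (∃ m' ∈ M, mul (mul m x) y = mul m' (mul x y)) ∧
      (∃ m' ∈ M, mul y (mul x m) = mul (mul y x) m'))

/-- `P` has a subnormal series each of whose factors is a group or has prime power order. -/
def HasSeries {X : Type} (mul : X → X → X) (e : X) (P : Set X) : Prop :=
  ∃ (n : ℕ) (S : ℕ → Set X), S 0 = {e} ∧ S n = P ∧ ∀ i < n, NormalIn mul e (S i) (S (i + 1)) ∧
    ((∀ x ∈ S (i + 1), ∀ y ∈ S (i + 1), ∀ z ∈ S (i + 1),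
        ∃ m ∈ S i, mul (mul x y) z = mul (mul x (mul y z)) m) ∨
      ∃ p k : ℕ, p.Prime ∧ Nat.card (S (i + 1)) = Nat.card (S i) * p ^ k)

/-- The finite loop `Q` with product `mul` and identity `e` has a Sylow `p`-subloop. -/
def HasSylow {Q : Type} [Fintype Q] (mul : Q → Q → Q) (e : Q) (p : ℕ) : Prop :=
  ∃ S : Finset Q, e ∈ S ∧
    (∀ a ∈ S, ∀ b ∈ S, mul a b ∈ S) ∧
    (∀ a b x : Q, a ∈ S → b ∈ S → mul a x = b → x ∈ S) ∧
    (∀ a b y : Q, a ∈ S → b ∈ S → mul y a = b → y ∈ S) ∧
    S.card = p ^ (Fintype.card Q).factorization p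

open H675HL Pool.Agent.TH427.AR in
theorem conv {Q : Type} [Fintype Q] {mul : Q → Q → Q} {e : Q} (h : AutLoop mul e) {p : ℕ}
    (hp : ∃ H : Set Q, @H675HL.Sub Q h.toAL H ∧
      Nat.card H = p ^ (Nat.card Q).factorization p) : HasSylow mul e p := by
  classical
  obtain ⟨H, ⟨hH1, hH2⟩, hcard⟩ := hp
  have hmul : ∀ a ∈ H, ∀ b ∈ H, mul a b ∈ H := hH2
  refine ⟨H.toFinset, Set.mem_toFinset.2 hH1, ?_, ?_, ?_, ?_⟩
  · intro a ha b hb
    exact Set.mem_toFinset.2 (hmul a (Set.mem_toFinset.1 ha) b (Set.mem_toFinset.1 hb))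
  · intro a b x ha hb hx
    rw [Set.mem_toFinset] at ha hb ⊢
    have hinj : Function.Injective (fun y : H => (⟨mul a y.1, hmul a ha y.1 y.2⟩ : H)) := by
      intro y z h'
      exact Subtype.ext ((h.ldiv a (mul a z.1)).unique (congrArg Subtype.val h') rfl)
    obtain ⟨y, hy⟩ := (Finite.injective_iff_surjective.1 hinj) ⟨b, hb⟩
    have h2 : mul a y.1 = b := congrArg Subtype.val hy
    rw [(h.ldiv a b).unique hx h2]
    exact y.2
  · intro a b x ha hb hx
    rw [Set.mem_toFinset] at ha hb ⊢
    have hinj : Function.Injective (fun y : H => (⟨mul y.1 a, hmul y.1 y.2 a ha⟩ : H)) := by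
      intro y z h'
      exact Subtype.ext ((h.rdiv a (mul z.1 a)).unique (congrArg Subtype.val h') rfl)
    obtain ⟨y, hy⟩ := (Finite.injective_iff_surjective.1 hinj) ⟨b, hb⟩
    have h2 : mul y.1 a = b := congrArg Subtype.val hy
    rw [(h.rdiv a b).unique hx h2]
    exact y.2
  · rw [Set.toFinset_card, ← Nat.card_eq_fintype_card, ← Nat.card_eq_fintype_card (α := Q)]
    exact hcard

theorem result :
    ∀ (Q : Type) [Fintype Q] (mul : Q → Q → Q) (e : Q), AutLoop mul e →
      ∀ (K : Type) (mulK : K → K → K),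
        (∀ x y z : K, mulK x y = mulK x z → y = z) →
        (∀ x y z : K, mulK y x = mulK z x → y = z) →
        ∀ f : Q → K, Function.Surjective f → (∀ x y, f (mul x y) = mulK (f x) (f y)) →
        HasSeries mul e {x | f x = f e} →
        ∀ p : ℕ, p.Prime →
        (∃ P : Finset K, f e ∈ P ∧ (∀ a ∈ P, ∀ b ∈ P, mulK a b ∈ P) ∧
          P.card = p ^ (Nat.card K).factorization p) →
        HasSylow mul e p := by
  intro Q _ mul e h K mulK cl cr f hsur hf hker p hp ⟨P, hP1, hPm, hcard⟩
  letI : H675HL.AL Q := h.toAL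
  letI : Mul K := ⟨mulK⟩
  exact conv h (Pool.Agent.TH427.AR.syl_ext (Q := Q) (K := K) f hsur hf cl cr hker p hp P hP1
    hPm hcard)

end Pool.Agent.Results.MP_b7c14b_al.GroupFactors
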